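import Pool.Agent.H12.RA.Defs

set_option autoImplicit false

/-!
# Characteristic subgroups of free groups and Fox derivatives modulo three
-/

namespace Pool.Agent.H12.RA

open FreeGroup (of)

/-- The intersection of the kernels of all homomorphisms to the symmetric groups of degree at most
`m`. -/
def C (r m : ℕ) : Subgroup (F r) :=
  ⨅ p : (Σ k : Fin (m + 1), (F r →* Equiv.Perm (Fin k))), p.2.ker

theorem mem_C {r m : ℕ} {x : F r} :
    x ∈ C r m ↔ ∀ (k : ℕ) (f : F r →* Equiv.Perm (Fin k)), k ≤ m → f x = 1 := by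
  unfold C
  rw [Subgroup.mem_iInf]
  constructor
  · intro h k f hk
    exact h ⟨⟨k, by omega⟩, f⟩
  · rintro h ⟨k, f⟩
    exact h k f (by omega)

theorem C_map {a b m : ℕ} (θ : F a →* F b) {x : F a} (hx : x ∈ C a m) : θ x ∈ C b m := by
  rw [mem_C] at hx ⊢
  intro k f hk
  exact hx k (f.comp θ) hk

theorem C_anti {r m m' : ℕ} (h : m ≤ m') : C r m' ≤ C r m := by
  intro x hx
  rw [mem_C] at hx ⊢
  intro k f hk
  exact hx k f (hk.trans h)

instance C_char (r m : ℕ) : (C r m).Characteristic := by
  rw [Subgroup.characteristic_iff_le_comap]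
  intro φ x hx
  exact C_map φ.toMonoidHom hx

theorem C_fin (r m : ℕ) : (C r m).FiniteIndex := by
  have h1 : ∀ k : ℕ, Finite (F r →* Equiv.Perm (Fin k)) := fun k =>
    Finite.of_equiv _ (FreeGroup.lift (α := Fin r) (β := Equiv.Perm (Fin k)))
  have h2 : Finite (Σ k : Fin (m + 1), (F r →* Equiv.Perm (Fin k))) := inferInstance
  unfold C
  exact Subgroup.finiteIndex_iInf fun p => inferInstance

instance (r m : ℕ) : (C r m).FiniteIndex := C_fin r m

theorem C_sub {r m : ℕ} {G : Type} [Group G] (θ : F r →* G) (Γ : Subgroup G)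
    (h0 : Γ.index ≠ 0) (hm : Γ.index ≤ m) {x : F r} (hx : x ∈ C r m) : θ x ∈ Γ := by
  rw [mem_C] at hx
  have : Γ.FiniteIndex := ⟨h0⟩
  have : Finite (G ⧸ Γ) := inferInstance
  let e : G ⧸ Γ ≃ Fin Γ.index := Finite.equivFinOfCardEq rfl
  have h := hx Γ.index (e.permCongrHom.toMonoidHom.comp
    ((MulAction.toPermHom G (G ⧸ Γ)).comp θ)) hm
  have h2 : MulAction.toPermHom G (G ⧸ Γ) (θ x) = 1 :=
    e.permCongrHom.injective (h.trans (map_one e.permCongrHom).symm)
  have h3 : θ x • (QuotientGroup.mk (1 : G) : G ⧸ Γ) = QuotientGroup.mk (1 : G) := by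
    have := congrArg (fun p : Equiv.Perm (G ⧸ Γ) => p (QuotientGroup.mk (1 : G))) h2
    exact this
  rw [MulAction.Quotient.smul_mk, smul_eq_mul, mul_one] at h3
  have h4 := QuotientGroup.eq.1 h3
  rw [mul_one] at h4
  exact (Subgroup.inv_mem_iff Γ).1 h4

/-! ### the Fox derivatives -/

section

variable {Q M : Type} [Group Q] [CommGroup M]

/-- The action of `Q` on the functions on `Q`. -/
def act (Q M : Type) [Group Q] [CommGroup M] : Q →* MulAut (Q → M) where
  toFun g :=
    { toFun := fun f q => f (g⁻¹ * q)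
      invFun := fun f q => f (g * q)
      left_inv := fun f => by funext q; simp
      right_inv := fun f => by funext q; simp
      map_mul' := fun f f' => rfl }
  map_one' := by
    ext f q
    simp
  map_mul' g g' := by
    ext f q
    simp [mul_assoc]

theorem act_apply (g : Q) (f : Q → M) (q : Q) : act Q M g f q = f (g⁻¹ * q) := rfl

end

/-- The coefficients. -/
abbrev Z3 : Type := Multiplicative (ZMod 3)

/-- The generator. -/
def c3 : Z3 := Multiplicative.ofAdd 1

theorem c3_ne : c3 ≠ 1 := by decide

theorem c3_inv : c3⁻¹ ≠ c3 := by decide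

open Classical in
/-- The function with the value `c3` at `1` and `1` elsewhere. -/
noncomputable def dl {Q : Type} [Group Q] (q : Q) : Z3 := if q = 1 then c3 else 1

theorem dl_one {Q : Type} [Group Q] : dl (1 : Q) = c3 := if_pos rfl

theorem dl_ne {Q : Type} [Group Q] {q : Q} (h : q ≠ 1) : dl q = 1 := if_neg h

section

variable {r : ℕ} (L : Subgroup (F r)) [L.Normal]

/-- The wreath product. -/
abbrev W : Type := SemidirectProduct (F r ⧸ L → Z3) (F r ⧸ L) (act (F r ⧸ L) Z3)

open Classical in
/-- The homomorphism whose first component is the Fox derivative with respect to the letter `i`. -/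
noncomputable def E (i : Fin r) : F r →* W L :=
  FreeGroup.lift fun j => ⟨if j = i then dl else 1, QuotientGroup.mk' L (of j)⟩

theorem E_right (i : Fin r) (w : F r) : (E L i w).right = QuotientGroup.mk' L w := by
  have h : (SemidirectProduct.rightHom.comp (E L i)) = QuotientGroup.mk' L := by
    ext j
    simp [E]
  exact DFunLike.congr_fun h w

theorem E_mul (i : Fin r) (u v : F r) (q : F r ⧸ L) :
    (E L i (u * v)).left q = (E L i u).left q * (E L i v).left ((QuotientGroup.mk' L u)⁻¹ * q) := by
  rw [map_mul, SemidirectProduct.mul_left, Pi.mul_apply, act_apply, E_right]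

theorem E_one (i : Fin r) (q : F r ⧸ L) : (E L i 1).left q = 1 := by
  rw [map_one]
  rfl

theorem E_inv (i : Fin r) (u : F r) (q : F r ⧸ L) :
    (E L i u⁻¹).left q = ((E L i u).left (QuotientGroup.mk' L u * q))⁻¹ := by
  have h := E_mul L i u⁻¹ u q
  rw [inv_mul_cancel, E_one, map_inv (QuotientGroup.mk' L), inv_inv] at h
  exact eq_inv_of_mul_eq_one_left h.symm

theorem E_of_self (i : Fin r) : (E L i (of i)).left = dl := by
  simp [E]

theorem E_of_ne {i j : Fin r} (h : j ≠ i) : (E L i (of j)).left = 1 := by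
  simp [E, h]

variable {L}

/-- the derivative of an element of a free factor is supported on the free factor -/
theorem E_supp {a : ℕ} (j : Fin a → Fin r) (i : Fin r) (y : F a) (q : F r ⧸ L)
    (hq : q ∉ ((QuotientGroup.mk' L).comp (FreeGroup.map j)).range) :
    (E L i (FreeGroup.map j y)).left q = 1 := by
  induction y using FreeGroup.induction_on generalizing q with
  | C1 => rw [map_one]; exact E_one L i q
  | of k =>
    rw [FreeGroup.map.of]
    by_cases h : j k = i
    · subst h
      rw [E_of_self]
      have hq1 : q ≠ 1 := fun h => hq (h ▸ Subgroup.one_mem _)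
      exact dl_ne hq1
    · rw [E_of_ne L h]
      rfl
  | inv_of k ih =>
    rw [map_inv, E_inv, ih, inv_one]
    intro h
    apply hq
    have h1 : QuotientGroup.mk' L (FreeGroup.map j (of k)) ∈
        ((QuotientGroup.mk' L).comp (FreeGroup.map j)).range := ⟨of k, rfl⟩
    have h2 := mul_mem (inv_mem h1) h
    rwa [inv_mul_cancel_left] at h2
  | mul u v hu hv =>
    rw [map_mul, E_mul, hu q hq, hv, one_mul]
    intro h
    apply hq
    have h1 : QuotientGroup.mk' L (FreeGroup.map j u) ∈
        ((QuotientGroup.mk' L).comp (FreeGroup.map j)).range := ⟨u, rfl⟩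
    have h2 := mul_mem h1 h
    rwa [mul_inv_cancel_left] at h2

theorem E_zero {a : ℕ} (j : Fin a → Fin r) (i : Fin r) (hi : ∀ k, j k ≠ i) (y : F a) :
    (E L i (FreeGroup.map j y)).left = 1 := by
  induction y using FreeGroup.induction_on with
  | C1 =>
    rw [map_one]
    funext q
    exact E_one L i q
  | of k => rw [FreeGroup.map.of, E_of_ne L (hi k)]
  | inv_of k ih =>
    funext q
    rw [map_inv, E_inv, ih]
    simp
  | mul u v hu hv =>
    funext q
    rw [map_mul, E_mul, hu, hv]
    simp

/-- If `h x ≡ a h` for a letter `x` and an element `a` of a free factor then `h` is congruent to an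
element of the factor. -/
theorem fox_factor [L.FiniteIndex] {a : ℕ} (j : Fin a → Fin r) (k : Fin a) (y : F a) (h : F r)
    (he : E L (j k) (FreeGroup.map j y * h) = E L (j k) (h * of (j k))) :
    ∃ a0 : F a, (FreeGroup.map j a0)⁻¹ * h ∈ L := by
  classical
  by_contra hcon
  push Not at hcon
  let R : Subgroup (F r ⧸ L) := ((QuotientGroup.mk' L).comp (FreeGroup.map j)).range
  let p : F r →* F r ⧸ L := QuotientGroup.mk' L
  have hyR : p (FreeGroup.map j y) ∈ R := ⟨y, rfl⟩
  have hh : p h ∉ R := by
    rintro ⟨a0, ha0⟩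
    apply hcon a0
    rw [← QuotientGroup.eq]
    exact ha0
  have : Finite (F r ⧸ L) := inferInstance
  have : Fintype (F r ⧸ L) := Fintype.ofFinite _
  have key : ∀ q, (E L (j k) (FreeGroup.map j y)).left q *
      (E L (j k) h).left ((p (FreeGroup.map j y))⁻¹ * q) =
      (E L (j k) h).left q * dl ((p h)⁻¹ * q) := by
    intro q
    have h1 := congrArg (fun w : W L => w.left q) he
    rw [E_mul, E_mul, E_of_self] at h1
    exact h1
  have key2 : ∀ q, (if q * (p h)⁻¹ ∈ R then (E L (j k) h).left ((p (FreeGroup.map j y))⁻¹ * q)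
      else 1) = (if q * (p h)⁻¹ ∈ R then (E L (j k) h).left q else 1) *
        (if q = p h then c3 else 1) := by
    intro q
    by_cases hq : q * (p h)⁻¹ ∈ R
    · rw [if_pos hq, if_pos hq]
      have h1 := key q
      have hqR : q ∉ R := by
        intro h2
        apply hh
        have h3 := mul_mem (inv_mem hq) h2
        rwa [mul_inv_rev, inv_inv, inv_mul_cancel_right] at h3
      rw [E_supp j (j k) y q hqR, one_mul] at h1
      rw [h1]
      congr 1
      by_cases h4 : q = p h
      · rw [if_pos h4, h4, inv_mul_cancel, dl_one]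
      · rw [if_neg h4]
        apply dl_ne
        intro h5
        apply h4
        have := congrArg (fun z => p h * z) h5
        simpa using this
    · rw [if_neg hq, if_neg hq, one_mul, if_neg]
      intro h1
      apply hq
      rw [h1, mul_inv_cancel]
      exact R.one_mem
  have hprod := Finset.prod_congr (rfl : (Finset.univ : Finset (F r ⧸ L)) = Finset.univ)
    fun q _ => key2 q
  rw [Finset.prod_mul_distrib, Finset.prod_ite_eq' Finset.univ (p h)] at hprod
  have hshift : ∏ q : F r ⧸ L, (if q * (p h)⁻¹ ∈ R then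
      (E L (j k) h).left ((p (FreeGroup.map j y))⁻¹ * q) else 1) =
      ∏ q : F r ⧸ L, (if q * (p h)⁻¹ ∈ R then (E L (j k) h).left q else 1) := by
    rw [← Equiv.prod_comp (Equiv.mulLeft (p (FreeGroup.map j y)))]
    refine Finset.prod_congr rfl fun q _ => ?_
    rw [Equiv.coe_mulLeft, inv_mul_cancel_left, mul_assoc]
    by_cases hq : q * (p h)⁻¹ ∈ R
    · rw [if_pos hq, if_pos (mul_mem hyR hq)]
    · rw [if_neg hq, if_neg]
      intro h1
      apply hq
      have h2 := mul_mem (inv_mem hyR) h1
      rwa [inv_mul_cancel_left] at h2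
  rw [hshift] at hprod
  simp only [Finset.mem_univ, if_true] at hprod
  exact c3_ne (left_eq_mul.1 hprod)

/-- If `a⁻¹ x^(±1) b ≡ x` for elements `a`, `b` of a free factor not containing the letter `x` then
the sign is positive and `a ≡ 1`. -/
theorem fox_letter {a : ℕ} (j : Fin a → Fin r) (i : Fin r) (hi : ∀ k, j k ≠ i) (u v : F a)
    (z : F r) (hz : z = of i ∨ z = (of i)⁻¹)
    (he : E L i ((FreeGroup.map j u)⁻¹ * z * FreeGroup.map j v) = E L i (of i)) :
    z = of i ∧ FreeGroup.map j u ∈ L := by
  classical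
  let p : F r →* F r ⧸ L := QuotientGroup.mk' L
  have h1 : ∀ q, (E L i z).left (p (FreeGroup.map j u) * q) =
      dl q := by
    intro q
    have h2 := congrArg (fun w : W L => w.left q) he
    rw [E_of_self, E_mul, E_mul, E_inv, E_zero j i hi u, E_zero j i hi v] at h2
    simp only [Pi.one_apply, inv_one, one_mul, mul_one, map_inv, inv_inv] at h2
    exact h2
  rcases hz with rfl | rfl
  · refine ⟨rfl, ?_⟩
    have h2 := h1 1
    rw [E_of_self, mul_one, dl_one] at h2
    by_contra h3
    rw [dl_ne] at h2
    · exact c3_ne h2.symm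
    · intro h4
      exact h3 ((QuotientGroup.eq_one_iff _).1 h4)
  · exfalso
    have h2 := h1 1
    rw [E_inv, E_of_self, mul_one, dl_one] at h2
    by_cases h3 : QuotientGroup.mk' L (of i) * p (FreeGroup.map j u) = 1
    · rw [h3, dl_one] at h2
      exact c3_inv h2
    · rw [dl_ne h3, inv_one] at h2
      exact c3_ne h2.symm

/-- There is a level at which the derivatives are determined. -/
theorem exists_level [L.FiniteIndex] : ∃ m : ℕ, ∀ m', m ≤ m' → ∀ (i : Fin r) (w w' : F r),
    w⁻¹ * w' ∈ C r m' → E L i w = E L i w' := by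
  have : Finite (F r ⧸ L) := inferInstance
  have h1 : Finite (W L) := Finite.of_equiv _ SemidirectProduct.equivProd.symm
  refine ⟨Nat.card (W L), fun m' hm' i w w' h => ?_⟩
  have h2 := C_sub (E L i) (⊥ : Subgroup (W L)) (by
    rw [Subgroup.index_bot]
    exact Nat.card_pos.ne') (by rw [Subgroup.index_bot]; exact hm') h
  rw [Subgroup.mem_bot, map_mul, map_inv, inv_mul_eq_one] at h2
  exact h2

end

end Pool.Agent.H12.RA
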