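import Mathlib

set_option autoImplicit false

/-!
# Recursively defined automorphisms of free groups: definitions
-/

namespace Pool.Agent.H12.RA

open FreeGroup (of)

/-- The free group of rank `r`. -/
abbrev F (r : ℕ) : Type := FreeGroup (Fin r)

/-- The class of automorphisms of free groups of finite rank generated by the sets `S m` of
automorphisms of `F m` under conjugation, composition with inner automorphisms, free products, and
extensions `x ↦ x^(±1) v` to one more letter: the smallest class which contains the identity of the
trivial group `F 0` and the elements of `S m`, and such that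

* (`ext`) if `α` is an automorphism of `F r` in the class and `v` is in `F r` then the automorphism of
  `F (r + 1)` which extends `α` and maps the last letter `x` to `x * v` or to `x⁻¹ * v` is in the class;
* (`mul`) if `α` and `β` are automorphisms of `F a` and `F b` in the class, `a, b ≥ 1`, then the
  automorphism of `F (a + b)`, the free product of `F a` and `F b`, which restricts to `α` and `β` on
  the factors is in the class;
* (`conj`) if `φ` is in the class then so is `ψ * φ * ψ⁻¹` for all automorphisms `ψ`;
* (`inner`) if `φ` is in the class then so are its compositions with inner automorphisms. -/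
inductive Tri (S : (m : ℕ) → Set (MulAut (F m))) : (r : ℕ) → MulAut (F r) → Prop
  | zero : Tri S 0 1
  | base {m : ℕ} {φ : MulAut (F m)} (hφ : φ ∈ S m) : Tri S m φ
  | ext {r : ℕ} {α : MulAut (F r)} (hα : Tri S r α) (v : F r) (φ : MulAut (F (r + 1)))
      (h : ∀ x, φ (FreeGroup.map Fin.castSucc x) = FreeGroup.map Fin.castSucc (α x))
      (h' : φ (of (Fin.last r)) = of (Fin.last r) * FreeGroup.map Fin.castSucc v ∨
        φ (of (Fin.last r)) = (of (Fin.last r))⁻¹ * FreeGroup.map Fin.castSucc v) :
      Tri S (r + 1) φ
  | mul {a b : ℕ} (ha : 0 < a) (hb : 0 < b) {α : MulAut (F a)} {β : MulAut (F b)}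
      (hα : Tri S a α) (hβ : Tri S b β) (φ : MulAut (F (a + b)))
      (h1 : ∀ x, φ (FreeGroup.map (Fin.castAdd b) x) = FreeGroup.map (Fin.castAdd b) (α x))
      (h2 : ∀ x, φ (FreeGroup.map (Fin.natAdd a) x) = FreeGroup.map (Fin.natAdd a) (β x)) :
      Tri S (a + b) φ
  | conj {r : ℕ} {φ : MulAut (F r)} (ψ : MulAut (F r)) (h : Tri S r φ) : Tri S r (ψ * φ * ψ⁻¹)
  | inner {r : ℕ} {φ : MulAut (F r)} (g : F r) (h : Tri S r φ) : Tri S r (MulAut.conj g * φ)

/-- The automorphism `φ` acts as the conjugation by `h` modulo `K`. -/
def Cg {r : ℕ} (K : Subgroup (F r)) (φ : MulAut (F r)) (h : F r) : Prop :=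
  ∀ x, (h * x * h⁻¹)⁻¹ * φ x ∈ K

/-- The set `T` of automorphisms of `F r` has the congruence property: for every subgroup `Γ` of finite
index in `Aut (F r)` there is a characteristic subgroup `K` of finite index in `F r` such that
`φ ∈ T` and `φ ≡ conj h` modulo `K` imply `(conj h)⁻¹ φ ∈ Γ`. In particular all elements of `T` which
act trivially on the quotient by `K` are in `Γ`, and if `Γ` contains the inner automorphisms, then all
elements of `T` which act on the quotient by `K` as an inner automorphism are in `Γ`. -/
def Congr (r : ℕ) (T : Set (MulAut (F r))) : Prop :=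
  ∀ Γ : Subgroup (MulAut (F r)), Γ.FiniteIndex → ∃ K : Subgroup (F r), K.Characteristic ∧
    K.FiniteIndex ∧ ∀ φ ∈ T, ∀ h : F r, Cg K φ h → (MulAut.conj h)⁻¹ * φ ∈ Γ

/-- The congruence subgroup property for `Out (F m)`, the question Q1 for the rank `m`: every normal
subgroup of finite index in `Aut (F m)` which contains the inner automorphisms contains all
automorphisms which act as an inner automorphism on the quotient by `K`, for some characteristic
subgroup `K` of finite index. -/
def Q1 (m : ℕ) : Prop :=
  ∀ N : Subgroup (MulAut (F m)), N.Normal → N.FiniteIndex → (∀ g, MulAut.conj g ∈ N) →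
    ∃ K : Subgroup (F m), K.Characteristic ∧ K.FiniteIndex ∧
      ∀ φ : MulAut (F m), (∃ g, Cg K φ g) → φ ∈ N

/-- The subgroup generated by the letters before the letter `i`. -/
def before {n : ℕ} (i : Fin n) : Subgroup (F n) := Subgroup.closure (of '' {j | j < i})

/-- Triangular automorphisms: `x i ↦ u (x i)^(±1) v` with `u`, `v` in the subgroup generated by the
letters before `x i`. -/
def Triangular {n : ℕ} (φ : MulAut (F n)) : Prop :=
  ∀ i : Fin n, ∃ u ∈ before i, ∃ v ∈ before i,
    φ (of i) = u * of i * v ∨ φ (of i) = u * (of i)⁻¹ * v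

end Pool.Agent.H12.RA
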