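import Pool.Agent.H12.RA.Basic

set_option autoImplicit false

/-!
# Extensions of automorphisms of free factors
-/

namespace Pool.Agent.H12.RA

open FreeGroup (of)

section

variable {a r : ℕ} (j : Fin a ↪ Fin r)

open Classical in
/-- The endomorphism which extends `α` by the identity on the other letters. -/
noncomputable def exh (α : F a →* F a) : F r →* F r :=
  FreeGroup.lift fun k => if h : ∃ i, j i = k then FreeGroup.map j (α (of h.choose)) else of k

theorem exh_map (α : F a →* F a) (x : F a) :
    exh j α (FreeGroup.map j x) = FreeGroup.map j (α x) := by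
  have h0 : (exh j α).comp (FreeGroup.map j) = (FreeGroup.map j).comp α := by
    ext i
    have h : ∃ i', j i' = j i := ⟨i, rfl⟩
    have h2 : h.choose = i := j.injective h.choose_spec
    rw [MonoidHom.comp_apply, FreeGroup.map.of, MonoidHom.comp_apply]
    unfold exh
    rw [FreeGroup.lift_apply_of, dif_pos h, h2]
  exact DFunLike.congr_fun h0 x

theorem exh_not (α : F a →* F a) {k : Fin r} (h : ∀ i, j i ≠ k) : exh j α (of k) = of k := by
  unfold exh
  rw [FreeGroup.lift_apply_of, dif_neg]
  rintro ⟨i, hi⟩
  exact h i hi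

theorem exh_comp (α β : F a →* F a) : exh j (α.comp β) = (exh j α).comp (exh j β) := by
  ext k
  by_cases h : ∃ i, j i = k
  · obtain ⟨i, rfl⟩ := h
    have e : of (j i) = FreeGroup.map j (of i) := by rw [FreeGroup.map.of]
    rw [MonoidHom.comp_apply, e, exh_map, exh_map, exh_map]
    rfl
  · push Not at h
    rw [MonoidHom.comp_apply, exh_not _ _ h, exh_not _ _ h, exh_not _ _ h]

theorem exh_id : exh j (MonoidHom.id _) = MonoidHom.id _ := by
  ext k
  by_cases h : ∃ i, j i = k
  · obtain ⟨i, rfl⟩ := h
    have e : of (j i) = FreeGroup.map j (of i) := by rw [FreeGroup.map.of]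
    rw [e, exh_map]
    rfl
  · push Not at h
    rw [exh_not _ _ h]
    rfl

/-- The automorphism which extends `α` by the identity on the other letters. -/
noncomputable def ex : MulAut (F a) →* MulAut (F r) where
  toFun α := MonoidHom.toMulEquiv (exh j α.toMonoidHom) (exh j α.symm.toMonoidHom)
    (by
      rw [← exh_comp, ← exh_id j]
      congr 1
      ext x
      simp)
    (by
      rw [← exh_comp, ← exh_id j]
      congr 1
      ext x
      simp)
  map_one' := by
    apply MulEquiv.ext
    intro x
    exact DFunLike.congr_fun (exh_id j) x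
  map_mul' α β := by
    apply MulEquiv.ext
    intro x
    exact DFunLike.congr_fun (exh_comp j α.toMonoidHom β.toMonoidHom) x

theorem ex_map (α : MulAut (F a)) (x : F a) :
    ex j α (FreeGroup.map j x) = FreeGroup.map j (α x) := exh_map j α.toMonoidHom x

theorem ex_not (α : MulAut (F a)) {k : Fin r} (h : ∀ i, j i ≠ k) : ex j α (of k) = of k :=
  exh_not j α.toMonoidHom h

variable (i0 : Fin r)

open Classical in
/-- The endomorphism which maps the letter `x` with the index `i0` to `x v`. -/
noncomputable def tah (v : F a) : F r →* F r :=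
  FreeGroup.lift fun k => if k = i0 then of i0 * FreeGroup.map j v else of k

variable {j i0}

theorem tah_self (v : F a) : tah j i0 v (of i0) = of i0 * FreeGroup.map j v := by
  unfold tah
  rw [FreeGroup.lift_apply_of, if_pos rfl]

theorem tah_ne (v : F a) {k : Fin r} (h : k ≠ i0) : tah j i0 v (of k) = of k := by
  unfold tah
  rw [FreeGroup.lift_apply_of, if_neg h]

theorem tah_map (hj : ∀ i, j i ≠ i0) (v x : F a) :
    tah j i0 v (FreeGroup.map j x) = FreeGroup.map j x := by
  have h0 : (tah j i0 v).comp (FreeGroup.map j) = FreeGroup.map j := by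
    ext i
    rw [MonoidHom.comp_apply, FreeGroup.map.of, tah_ne v (hj i)]
  exact DFunLike.congr_fun h0 x

theorem tah_mul (hj : ∀ i, j i ≠ i0) (v w : F a) :
    tah j i0 (v * w) = (tah j i0 v).comp (tah j i0 w) := by
  ext k
  rw [MonoidHom.comp_apply]
  by_cases h : k = i0
  · subst h
    rw [tah_self, tah_self, (tah j k v).map_mul, tah_self, tah_map hj,
      (FreeGroup.map j).map_mul, mul_assoc]
  · rw [tah_ne _ h, tah_ne _ h, tah_ne _ h]

theorem tah_one : tah j i0 (1 : F a) = MonoidHom.id _ := by
  ext k
  by_cases h : k = i0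
  · subst h
    rw [tah_self, MonoidHom.map_one, mul_one]
    rfl
  · rw [tah_ne _ h]
    rfl

/-- The automorphisms `x ↦ x v`. -/
noncomputable def ta (hj : ∀ i, j i ≠ i0) : F a →* MulAut (F r) where
  toFun v := MonoidHom.toMulEquiv (tah j i0 v) (tah j i0 v⁻¹)
    (by rw [← tah_mul hj, inv_mul_cancel, tah_one])
    (by rw [← tah_mul hj, mul_inv_cancel, tah_one])
  map_one' := by
    apply MulEquiv.ext
    intro x
    exact DFunLike.congr_fun (tah_one (j := j) (i0 := i0)) x
  map_mul' v w := by
    apply MulEquiv.ext
    intro x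
    exact DFunLike.congr_fun (tah_mul hj v w) x

theorem ta_apply (hj : ∀ i, j i ≠ i0) (v : F a) (x : F r) : ta hj v x = tah j i0 v x := rfl

end

theorem aut_ext {r : ℕ} {φ ψ : MulAut (F r)} (h : ∀ k, φ (of k) = ψ (of k)) : φ = ψ := by
  apply MulEquiv.toMonoidHom_injective
  ext k
  exact h k

theorem map_inj {a r : ℕ} {j : Fin a → Fin r} (hj : Function.Injective j) :
    Function.Injective (FreeGroup.map j) := FreeGroup.map_injective hj

end Pool.Agent.H12.RA
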