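import Pool.Agent.H12.RA.Ext

set_option autoImplicit false

/-!
# The congruence subgroup property for recursively defined automorphisms
-/

namespace Pool.Agent.H12.RA

open FreeGroup (of)

/-- The level `m` is large enough for the subgroup `Γ`. -/
structure Hyp (S : (m : ℕ) → Set (MulAut (F m))) (r : ℕ) (Γ : Subgroup (MulAut (F r))) (l2 l m : ℕ) : Prop where
  nor : Γ.Normal
  sub : ∀ (a : ℕ) (j : Fin a ↪ Fin r), a < r → ∀ φ, Tri S a φ → Cg (C a l2) φ 1 →
    ex j φ ∈ Γ
  base : ∀ φ ∈ S r, ∀ h, Cg (C r l2) φ h → (MulAut.conj h)⁻¹ * φ ∈ Γ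
  idx : Γ.index ≠ 0
  idx2 : Γ.index ≤ l2
  le2 : l2 ≤ l
  fox2 : ∀ (i : Fin r) (w w' : F r), w⁻¹ * w' ∈ C r l → E (C r l2) i w = E (C r l2) i w'
  le : l ≤ m
  fox : ∀ (i : Fin r) (w w' : F r), w⁻¹ * w' ∈ C r m → E (C r l) i w = E (C r l) i w'

section

variable {S : (m : ℕ) → Set (MulAut (F m))} {r : ℕ} {Γ : Subgroup (MulAut (F r))} {l2 l m : ℕ}

theorem cg_mono {K K' : Subgroup (F r)} (h : K ≤ K') {φ : MulAut (F r)} {g : F r}
    (hg : Cg K φ g) : Cg K' φ g := fun x => h (hg x)

theorem cg_conj {K : Subgroup (F r)} [K.Normal] {φ : MulAut (F r)} {h : F r} (hg : Cg K φ h) :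
    Cg K ((MulAut.conj h)⁻¹ * φ) 1 := by
  intro x
  have h1 := Subgroup.Normal.conj_mem (inferInstance : K.Normal) _ (hg x) h⁻¹
  have e : (1 * x * 1⁻¹)⁻¹ * ((MulAut.conj h)⁻¹ * φ) x =
      h⁻¹ * ((h * x * h⁻¹)⁻¹ * φ x) * h⁻¹⁻¹ := by
    rw [MulAut.mul_apply, ← map_inv, MulAut.conj_apply]
    group
  rw [e]
  exact h1

/-- If `φ` is the conjugation by `h` modulo a characteristic subgroup and `h` is in a larger one then
`φ` is trivial modulo the larger one. -/
theorem cg_one {K : Subgroup (F r)} [K.Normal] {φ : MulAut (F r)} {h : F r} (hg : Cg K φ h)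
    (hh : h ∈ K) : Cg K φ 1 := by
  intro x
  have h1 := hg x
  have h2 : x⁻¹ * h * x ∈ K := by
    have := Subgroup.Normal.conj_mem (inferInstance : K.Normal) _ hh x⁻¹
    rwa [inv_inv] at this
  have e : (1 * x * 1⁻¹)⁻¹ * φ x = (x⁻¹ * h * x) * h⁻¹ * ((h * x * h⁻¹)⁻¹ * φ x) := by group
  rw [e]
  exact mul_mem (mul_mem h2 (inv_mem hh)) h1

theorem conj_mem (H : Hyp S r Γ l2 l m) {h : F r} (hh : h ∈ C r l2) : MulAut.conj h ∈ Γ :=
  C_sub MulAut.conj Γ H.idx H.idx2 hh

/-- the restriction to a free factor -/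
theorem sub_mem (H : Hyp S r Γ l2 l m) {a : ℕ} (j : Fin a ↪ Fin r) (ha : a < r)
    (p : F r →* F a) (hp : ∀ x, p (FreeGroup.map j x) = x)
    {α : MulAut (F a)} (hα : Tri S a α) {φ : MulAut (F r)}
    (h : ∀ x, φ (FreeGroup.map j x) = FreeGroup.map j (α x)) (hφ : Cg (C r l2) φ 1) :
    ex j α ∈ Γ := by
  refine H.sub a j ha α hα fun x => ?_
  have h1 := C_map p (hφ (FreeGroup.map j x))
  rw [h, one_mul, inv_one, mul_one, MonoidHom.map_mul, MonoidHom.map_inv, hp, hp] at h1
  rw [one_mul, inv_one, mul_one]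
  exact h1

theorem factor (H : Hyp S r Γ l2 l m) {a : ℕ} (j : Fin a ↪ Fin r) (k : Fin a)
    {α : MulAut (F a)} {φ : MulAut (F r)}
    (h1 : ∀ x, φ (FreeGroup.map j x) = FreeGroup.map j (α x)) {h : F r}
    (hφ : Cg (C r m) φ h) : ∃ a0 : F a, (FreeGroup.map j a0)⁻¹ * h ∈ C r l := by
  refine fox_factor j k (α (of k)) h ?_
  refine (H.fox _ _ _ ?_).symm
  have h2 := Subgroup.Normal.conj_mem (inferInstance : (C r m).Normal) _ (hφ (of (j k))) h⁻¹
  have e : (h * of (j k))⁻¹ * (FreeGroup.map j (α (of k)) * h) =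
      h⁻¹ * ((h * of (j k) * h⁻¹)⁻¹ * φ (of (j k))) * h⁻¹⁻¹ := by
    have e1 : φ (of (j k)) = FreeGroup.map j (α (of k)) := by
      rw [← h1, FreeGroup.map.of]
    rw [e1]
    group
  rw [e]
  exact h2

end

theorem comm_one (h x : F 1) : h * x = x * h := by
  have h0 : ∀ h : F 1, h * of 0 = of 0 * h := by
    intro h
    induction h using FreeGroup.induction_on with
    | C1 => simp
    | of i => rw [Subsingleton.elim i 0]
    | inv_of i hi => rw [inv_mul_eq_iff_eq_mul, ← mul_assoc, hi, mul_inv_cancel_right]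
    | mul x y hx hy => rw [mul_assoc, hy, ← mul_assoc, hx, mul_assoc]
  induction x using FreeGroup.induction_on with
  | C1 => simp
  | of i => rw [Subsingleton.elim i 0]; exact h0 h
  | inv_of i hi => rw [eq_inv_mul_iff_mul_eq, ← mul_assoc, ← hi, mul_inv_cancel_right]
  | mul x y hx hy => rw [← mul_assoc, hx, mul_assoc, hy, ← mul_assoc]

theorem step (S : (m : ℕ) → Set (MulAut (F m))) : ∀ (r : ℕ) (φ : MulAut (F r)), Tri S r φ →
    ∀ (Γ : Subgroup (MulAut (F r))) (l2 l m : ℕ), Hyp S r Γ l2 l m → ∀ h, Cg (C r m) φ h → (MulAut.conj h)⁻¹ * φ ∈ Γ := by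
  intro r φ hφ
  induction hφ with
  | zero =>
    intro Γ l2 l m H h _
    have h1 : (MulAut.conj h)⁻¹ * (1 : MulAut (F 0)) = 1 := by
      ext x
      exact Subsingleton.elim _ _
    rw [h1]
    exact Γ.one_mem
  | @base r φ hφ =>
    intro Γ l2 l m H h hg
    exact H.base φ hφ h (cg_mono (C_anti (H.le2.trans H.le)) hg)
  | @conj r φ ψ hφ ih =>
    intro Γ l2 l m H h hg
    have hn := H.nor
    have h1 : Cg (C r m) φ (ψ⁻¹ h) := by
      intro x
      have h2 := C_map (ψ⁻¹ : MulAut (F r)).toMonoidHom (hg (ψ x))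
      have e : (ψ⁻¹ : MulAut (F r)).toMonoidHom ((h * ψ x * h⁻¹)⁻¹ * (ψ * φ * ψ⁻¹) (ψ x)) =
          (ψ⁻¹ h * x * (ψ⁻¹ h)⁻¹)⁻¹ * φ x := by
        change ψ⁻¹ ((h * ψ x * h⁻¹)⁻¹ * (ψ * φ * ψ⁻¹) (ψ x)) = _
        simp [MulAut.mul_apply]
      rwa [e] at h2
    have h2 := hn.conj_mem _ (ih Γ l2 l m H _ h1) ψ
    have e : ψ * ((MulAut.conj (ψ⁻¹ h))⁻¹ * φ) * ψ⁻¹ = (MulAut.conj h)⁻¹ * (ψ * φ * ψ⁻¹) := by
      ext x
      simp [MulAut.mul_apply, ← map_inv, MulAut.conj_apply]
    rwa [e] at h2
  | @inner r φ g hφ ih =>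
    intro Γ l2 l m H h hg
    have h1 : Cg (C r m) φ (g⁻¹ * h) := by
      intro x
      have h2 := Subgroup.Normal.conj_mem (inferInstance : (C r m).Normal) _ (hg x) g⁻¹
      have e : (g⁻¹ * h * x * (g⁻¹ * h)⁻¹)⁻¹ * φ x =
          g⁻¹ * ((h * x * h⁻¹)⁻¹ * (MulAut.conj g * φ) x) * g⁻¹⁻¹ := by
        rw [MulAut.mul_apply, MulAut.conj_apply]
        group
      rw [e]
      exact h2
    have h2 := ih Γ l2 l m H _ h1
    have e : (MulAut.conj (g⁻¹ * h))⁻¹ * φ = (MulAut.conj h)⁻¹ * (MulAut.conj g * φ) := by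
      rw [map_mul, map_inv, mul_inv_rev, inv_inv, mul_assoc]
    rwa [e] at h2
  | @mul a b ha hb α β hα hβ φ h1 h2 ihα ihβ =>
    intro Γ l2 l m H h hg
    have : NeZero a := ⟨ha.ne'⟩
    have : NeZero b := ⟨hb.ne'⟩
    let ja : Fin a ↪ Fin (a + b) := Fin.castAddEmb b
    let jb : Fin b ↪ Fin (a + b) := Fin.natAddEmb a
    have hja : ∀ x, φ (FreeGroup.map ja x) = FreeGroup.map ja (α x) := h1
    have hjb : ∀ x, φ (FreeGroup.map jb x) = FreeGroup.map jb (β x) := h2
    -- the retractions
    let pa : F (a + b) →* F a := FreeGroup.lift (Fin.addCases (fun i => of i) fun _ => 1)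
    let pb : F (a + b) →* F b := FreeGroup.lift (Fin.addCases (fun _ => 1) fun i => of i)
    have hpaa : ∀ x, pa (FreeGroup.map ja x) = x := by
      intro x
      have h3 : pa.comp (FreeGroup.map ja) = MonoidHom.id _ := by
        ext i
        rw [MonoidHom.comp_apply, FreeGroup.map.of]
        change FreeGroup.lift _ (of (Fin.castAdd b i)) = of i
        rw [FreeGroup.lift_apply_of, Fin.addCases_left]
      exact DFunLike.congr_fun h3 x
    have hpab : ∀ x, pa (FreeGroup.map jb x) = 1 := by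
      intro x
      have h3 : pa.comp (FreeGroup.map jb) = 1 := by
        ext i
        rw [MonoidHom.comp_apply, FreeGroup.map.of]
        change FreeGroup.lift _ (of (Fin.natAdd a i)) = 1
        rw [FreeGroup.lift_apply_of, Fin.addCases_right]
      exact DFunLike.congr_fun h3 x
    have hpbb : ∀ x, pb (FreeGroup.map jb x) = x := by
      intro x
      have h3 : pb.comp (FreeGroup.map jb) = MonoidHom.id _ := by
        ext i
        rw [MonoidHom.comp_apply, FreeGroup.map.of]
        change FreeGroup.lift _ (of (Fin.natAdd a i)) = of i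
        rw [FreeGroup.lift_apply_of, Fin.addCases_right]
      exact DFunLike.congr_fun h3 x
    obtain ⟨a0, ha0⟩ := factor H ja (0 : Fin a) hja hg
    obtain ⟨b0, hb0⟩ := factor H jb (0 : Fin b) hjb hg
    have h3 : (FreeGroup.map ja a0)⁻¹ * FreeGroup.map jb b0 ∈ C (a + b) l := by
      have := mul_mem ha0 (inv_mem hb0)
      have e : (FreeGroup.map ja a0)⁻¹ * h * ((FreeGroup.map jb b0)⁻¹ * h)⁻¹ =
          (FreeGroup.map ja a0)⁻¹ * FreeGroup.map jb b0 := by group
      rwa [e] at this
    have h4 : a0 ∈ C a l := by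
      have := C_map pa h3
      rw [pa.map_mul, pa.map_inv, hpaa, hpab, mul_one] at this
      exact (Subgroup.inv_mem_iff _).1 this
    have hh : h ∈ C (a + b) l := by
      have := mul_mem (C_map (FreeGroup.map ja) h4) ha0
      rwa [mul_inv_cancel_left] at this
    have hh2 : h ∈ C (a + b) l2 := C_anti H.le2 hh
    have hφ1 : Cg (C (a + b) l2) φ 1 :=
      cg_one (cg_mono (C_anti (H.le2.trans H.le)) hg) hh2
    have h5 := sub_mem H ja (by omega) pa hpaa hα hja hφ1
    have h6 := sub_mem H jb (by omega) pb hpbb hβ hjb hφ1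
    have h7 := conj_mem H hh2
    have e : φ = ex ja α * ex jb β := by
      apply aut_ext
      intro k
      rw [MulAut.mul_apply]
      refine Fin.addCases (fun i => ?_) (fun i => ?_) k
      · have e1 : of (Fin.castAdd b i) = FreeGroup.map ja (of i) := by
          rw [FreeGroup.map.of]
          rfl
        have e2 : ex jb β (of (Fin.castAdd b i)) = of (Fin.castAdd b i) := by
          apply ex_not
          intro i' h8
          have h9 := congrArg Fin.val h8
          have h10 : a + i'.val = i.val := h9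
          have := i.2
          omega
        rw [e2, e1, hja, ex_map]
      · have e1 : of (Fin.natAdd a i) = FreeGroup.map jb (of i) := by
          rw [FreeGroup.map.of]
          rfl
        have e3 : ∀ y, ex ja α (FreeGroup.map jb y) = FreeGroup.map jb y := by
          intro y
          have h11 : ((ex ja α : MulAut (F (a + b))).toMonoidHom).comp (FreeGroup.map jb) =
              FreeGroup.map jb := by
            ext i
            rw [MonoidHom.comp_apply, FreeGroup.map.of]
            change ex ja α (of (jb i)) = _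
            apply ex_not
            intro i' h8
            have h9 := congrArg Fin.val h8
            have h10 : i'.val = a + i.val := h9
            have := i'.2
            omega
          exact DFunLike.congr_fun h11 y
        rw [e1, hjb, ex_map, e3]
    rw [e]
    exact mul_mem (inv_mem h7) (mul_mem h5 h6)
  | @ext r α hα v φ h1 h2 ih =>
    intro Γ l2 l m H h hg
    let ja : Fin r ↪ Fin (r + 1) := Fin.castSuccEmb
    have hj : ∀ i, ja i ≠ Fin.last r := fun i => (Fin.castSucc_lt_last i).ne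
    have hja : ∀ x, φ (FreeGroup.map ja x) = FreeGroup.map ja (α x) := h1
    have h2' : φ (of (Fin.last r)) = of (Fin.last r) * FreeGroup.map ja v ∨
        φ (of (Fin.last r)) = (of (Fin.last r))⁻¹ * FreeGroup.map ja v := h2
    obtain ⟨z, hz, hφz⟩ : ∃ z : F (r + 1), (z = of (Fin.last r) ∨ z = (of (Fin.last r))⁻¹) ∧
        φ (of (Fin.last r)) = z * FreeGroup.map ja v := by
      rcases h2' with h3 | h3
      · exact ⟨_, Or.inl rfl, h3⟩
      · exact ⟨_, Or.inr rfl, h3⟩
    let pa : F (r + 1) →* F r := FreeGroup.lift (Fin.lastCases 1 fun i => of i)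
    have hpaa : ∀ x, pa (FreeGroup.map ja x) = x := by
      intro x
      have h3 : pa.comp (FreeGroup.map ja) = MonoidHom.id _ := by
        ext i
        rw [MonoidHom.comp_apply, FreeGroup.map.of]
        change FreeGroup.lift _ (of (Fin.castSucc i)) = of i
        rw [FreeGroup.lift_apply_of, Fin.lastCases_castSucc]
      exact DFunLike.congr_fun h3 x
    have hpal : pa (of (Fin.last r)) = 1 := by
      change FreeGroup.lift _ (of (Fin.last r)) = 1
      rw [FreeGroup.lift_apply_of, Fin.lastCases_last]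
    -- the main point: `h` is in the subgroup of level `l2`
    have key : z = of (Fin.last r) ∧ ∃ h0 : F (r + 1), h0 ∈ C (r + 1) l2 ∧
        MulAut.conj h0 = MulAut.conj h := by
      rcases Nat.eq_zero_or_pos r with hr | hr
      · subst hr
        have h3 : v = 1 := Subsingleton.elim _ _
        rw [h3, MonoidHom.map_one, mul_one] at hφz
        have h4 := hg (of (Fin.last 0))
        rw [comm_one h, mul_inv_cancel_right, hφz] at h4
        have h5 := H.fox (Fin.last 0) _ _ h4
        obtain ⟨h6, -⟩ := fox_letter ja (Fin.last 0) hj 1 1 z hz (by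
          rw [MonoidHom.map_one, inv_one, one_mul, mul_one]
          exact h5.symm)
        refine ⟨h6, 1, Subgroup.one_mem _, ?_⟩
        ext x
        rw [MulAut.conj_apply, MulAut.conj_apply, comm_one h]
        simp
      · have : NeZero r := ⟨hr.ne'⟩
        obtain ⟨a0, ha0⟩ := factor H ja (0 : Fin r) hja hg
        have h3 : (of (Fin.last r))⁻¹ *
            ((FreeGroup.map ja a0)⁻¹ * z * FreeGroup.map ja (v * a0)) ∈ C (r + 1) l := by
          have h4 := C_anti H.le (hg (of (Fin.last r)))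
          rw [hφz] at h4
          -- `h = a0 * l'`
          obtain ⟨l', hl', hl2⟩ : ∃ l' ∈ C (r + 1) l, h = FreeGroup.map ja a0 * l' :=
            ⟨_, ha0, by group⟩
          have h5 := Subgroup.Normal.conj_mem (inferInstance : (C (r + 1) l).Normal) _ h4
            (FreeGroup.map ja a0)⁻¹
          have h6 : (of (Fin.last r))⁻¹ * (l' * of (Fin.last r) * l'⁻¹) ∈ C (r + 1) l := by
            have h7 := Subgroup.Normal.conj_mem (inferInstance : (C (r + 1) l).Normal) _ hl'
              (of (Fin.last r))⁻¹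
            have := mul_mem h7 (inv_mem hl')
            have e : (of (Fin.last r))⁻¹ * l' * (of (Fin.last r))⁻¹⁻¹ * l'⁻¹ =
                (of (Fin.last r))⁻¹ * (l' * of (Fin.last r) * l'⁻¹) := by group
            rwa [e] at this
          have h8 := mul_mem h6 h5
          have e : (of (Fin.last r))⁻¹ * (l' * of (Fin.last r) * l'⁻¹) *
              ((FreeGroup.map ja a0)⁻¹ * ((h * of (Fin.last r) * h⁻¹)⁻¹ *
              (z * FreeGroup.map ja v)) * (FreeGroup.map ja a0)⁻¹⁻¹) =
              (of (Fin.last r))⁻¹ *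
            ((FreeGroup.map ja a0)⁻¹ * z * FreeGroup.map ja (v * a0)) := by
            rw [hl2, MonoidHom.map_mul]
            group
          rwa [e] at h8
        have h4 := H.fox2 (Fin.last r) _ _ h3
        obtain ⟨h5, h6⟩ := fox_letter ja (Fin.last r) hj a0 (v * a0) z hz h4.symm
        refine ⟨h5, h, ?_, rfl⟩
        have := mul_mem h6 (C_anti H.le2 ha0)
        rwa [mul_inv_cancel_left] at this
    obtain ⟨hz1, h0, hh0, hh1⟩ := key
    subst hz1
    have hg0 : Cg (C (r + 1) m) φ h0 := by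
      intro x
      have h3 : h0 * x * h0⁻¹ = h * x * h⁻¹ := by
        have := DFunLike.congr_fun hh1 x
        rwa [MulAut.conj_apply, MulAut.conj_apply] at this
      rw [h3]
      exact hg x
    rw [← hh1]
    have hφ1 : Cg (C (r + 1) l2) φ 1 :=
      cg_one (cg_mono (C_anti (H.le2.trans H.le)) hg0) hh0
    have hv : v ∈ C r l2 := by
      have h3 := C_map pa (hφ1 (of (Fin.last r)))
      rw [hφz, pa.map_mul, pa.map_mul, pa.map_inv, pa.map_mul, pa.map_mul, hpaa, hpal] at h3
      simpa using h3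
    have h5 := sub_mem H ja (by omega) pa hpaa hα hja hφ1
    have h6 : ta hj v ∈ Γ := C_sub (ta hj) Γ H.idx H.idx2 hv
    have e : φ = ta hj v * ex ja α := by
      apply aut_ext
      intro k
      rw [MulAut.mul_apply]
      refine Fin.lastCases ?_ (fun i => ?_) k
      · rw [ex_not ja α hj, ta_apply, tah_self, hφz]
      · have e1 : of (Fin.castSucc i) = FreeGroup.map ja (of i) := by
          rw [FreeGroup.map.of]
          rfl
        rw [e1, hja, ex_map, ta_apply, tah_map hj]
    rw [e]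
    exact mul_mem (inv_mem (conj_mem H hh0)) (mul_mem h6 h5)

/-- there is a level -/
theorem exists_hyp (S : (m : ℕ) → Set (MulAut (F m))) (hS : ∀ m, Congr m (S m)) (r : ℕ)
    (Γ : Subgroup (MulAut (F r))) (hn : Γ.Normal) (hf : Γ.FiniteIndex) :
    ∃ l2 l m, Hyp S r Γ l2 l m := by
  induction r using Nat.strong_induction_on with
  | _ r IH =>
    have h1 : ∀ p : (Σ a : Fin r, (Fin a ↪ Fin r)), ∃ l2 l m,
        Hyp S p.1 (Γ.comap (ex p.2)) l2 l m := fun p => by
      refine IH p.1 p.1.2 _ inferInstance ⟨?_⟩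
      have h3 := Subgroup.relIndex_comap_ne_zero (ex p.2) (J := Γ) (K := ⊤) (by
        rw [Subgroup.relIndex_top_right]
        exact hf.index_ne_zero)
      rwa [Subgroup.comap_top, Subgroup.relIndex_top_right] at h3
    choose n2 n1 n hn' using h1
    classical
    have : Finite (Σ a : Fin r, (Fin a ↪ Fin r)) := inferInstance
    have : Fintype (Σ a : Fin r, (Fin a ↪ Fin r)) := Fintype.ofFinite _
    obtain ⟨M, hM⟩ : ∃ M, ∀ p, n p ≤ M :=
      ⟨Finset.univ.sup n, fun p => Finset.le_sup (f := n) (Finset.mem_univ p)⟩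
    obtain ⟨B, hB⟩ : ∃ B, ∀ φ ∈ S r, ∀ h, Cg (C r B) φ h → (MulAut.conj h)⁻¹ * φ ∈ Γ := by
      obtain ⟨K, -, hK, h2⟩ := hS r Γ hf
      refine ⟨K.index, fun φ hφ h hg => h2 φ hφ h fun x => ?_⟩
      have h3 := C_sub (MonoidHom.id _) K hK.index_ne_zero le_rfl (hg x)
      simpa using h3
    obtain ⟨m1, hm1⟩ := exists_level (L := C r (max (max M B) Γ.index))
    obtain ⟨m2, hm2⟩ := exists_level (L := C r (max (max (max M B) Γ.index) m1))
    refine ⟨max (max M B) Γ.index, max (max (max M B) Γ.index) m1,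
      max (max (max (max M B) Γ.index) m1) m2, ?_⟩
    constructor
    · exact hn
    · intro a j ha φ hφ hg
      have h2 := step S a φ hφ _ _ _ _ (hn' ⟨⟨a, ha⟩, j⟩) 1
        (cg_mono (C_anti ((hM ⟨⟨a, ha⟩, j⟩).trans ((le_max_left _ _).trans (le_max_left _ _)))) hg)
      rw [map_one, inv_one, one_mul] at h2
      exact h2
    · intro φ hφ h hg
      exact hB φ hφ h (cg_mono (C_anti ((le_max_right _ _).trans (le_max_left _ _))) hg)
    · exact hf.index_ne_zero
    · exact le_max_right _ _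
    · exact le_max_left _ _
    · exact hm1 _ (le_max_right _ _)
    · exact le_max_left _ _
    · exact hm2 _ (le_max_right _ _)

/-- **Main theorem.** -/
theorem main (S : (m : ℕ) → Set (MulAut (F m))) (hS : ∀ m, Congr m (S m)) (r : ℕ) :
    Congr r {φ | Tri S r φ} := by
  intro Γ hf
  have h1 : Γ.normalCore.FiniteIndex := inferInstance
  obtain ⟨l2, l, m, H⟩ := exists_hyp S hS r Γ.normalCore (Subgroup.normalCore_normal Γ) h1
  exact ⟨C r m, inferInstance, inferInstance, fun φ hφ h hg =>
    Subgroup.normalCore_le Γ (step S r φ hφ _ _ _ _ H h hg)⟩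

end Pool.Agent.H12.RA
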