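import Pool.Agent.H12.RA.Main
import Pool.Agent.H12.RA.AS.Asada

set_option autoImplicit false

/-!
# Ranks at most two, and the ranks with the congruence subgroup property
-/

namespace Pool.Agent.H12.RA

open FreeGroup (of)

/-- it suffices to find a subgroup of finite index -/
theorem congr_of {r : ℕ} {T : Set (MulAut (F r))}
    (h : ∀ Γ : Subgroup (MulAut (F r)), Γ.FiniteIndex → ∃ K : Subgroup (F r), K.FiniteIndex ∧
      ∀ φ ∈ T, ∀ h : F r, Cg K φ h → (MulAut.conj h)⁻¹ * φ ∈ Γ) :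
    Congr r T := by
  intro Γ hΓ
  obtain ⟨K, hK, h1⟩ := h Γ hΓ
  refine ⟨C r K.index, inferInstance, inferInstance, fun φ hφ g hg => h1 φ hφ g fun x => ?_⟩
  have h3 := C_sub (MonoidHom.id _) K hK.index_ne_zero le_rfl (hg x)
  simpa using h3

/-- for the set of all automorphisms it suffices to treat `h = 1` -/
theorem congr_univ {r : ℕ}
    (h : ∀ Γ : Subgroup (MulAut (F r)), Γ.FiniteIndex → ∃ K : Subgroup (F r), K.FiniteIndex ∧
      ∀ φ : MulAut (F r), (∀ x, x⁻¹ * φ x ∈ K) → φ ∈ Γ) : Congr r Set.univ := by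
  intro Γ hΓ
  obtain ⟨K, hK, h1⟩ := h Γ hΓ
  refine ⟨C r K.index, inferInstance, inferInstance, fun φ _ g hg => h1 _ fun x => ?_⟩
  have h2 := cg_conj (K := C r K.index) hg x
  have h3 := C_sub (MonoidHom.id _) K hK.index_ne_zero le_rfl h2
  simpa using h3

theorem congr_zero : Congr 0 Set.univ := by
  apply congr_univ
  intro Γ _
  refine ⟨⊤, inferInstance, fun φ _ => ?_⟩
  have : φ = 1 := by
    ext x
    exact Subsingleton.elim _ _
  rw [this]
  exact Γ.one_mem

/-- the theorem of Asada -/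
theorem congr_two : Congr 2 Set.univ := by
  apply congr_univ
  intro Γ hΓ
  obtain ⟨Q, _, _, hQ⟩ := Pool.Agent.Q171.AS.asadaQ Γ
  have h1 : Finite (F 2 →* Q) := Finite.of_equiv _ (FreeGroup.lift (α := Fin 2) (β := Q))
  refine ⟨⨅ f : F 2 →* Q, f.ker, Subgroup.finiteIndex_iInf fun f => inferInstance, fun φ hφ => ?_⟩
  refine hQ φ fun f w => ?_
  have h2 := Subgroup.mem_iInf.1 (hφ w) f
  rw [MonoidHom.mem_ker, f.map_mul, f.map_inv, inv_mul_eq_one] at h2
  exact h2.symm

/-- rank one -/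
theorem congr_one : Congr 1 Set.univ := by
  apply congr_univ
  intro Γ hΓ
  refine ⟨C 1 3, inferInstance, fun φ hφ => ?_⟩
  -- an automorphism of `F 1` is the identity or the inversion
  let p : F 1 →* Multiplicative ℤ := FreeGroup.lift fun _ => Multiplicative.ofAdd 1
  have hp : ∀ x : F 1, x = of 0 ^ (Multiplicative.toAdd (p x)) := by
    intro x
    induction x using FreeGroup.induction_on with
    | C1 => simp
    | of i => rw [Subsingleton.elim i 0]; simp [p]
    | inv_of i hi => rw [Subsingleton.elim i 0]; simp [p]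
    | mul x y hx hy =>
      rw [p.map_mul, toAdd_mul, zpow_add, ← hx, ← hy]
  obtain ⟨k, hk⟩ : ∃ k : ℤ, φ (of 0) = of 0 ^ k := ⟨_, hp _⟩
  obtain ⟨k', hk'⟩ : ∃ k' : ℤ, φ⁻¹ (of 0) = of 0 ^ k' := ⟨_, hp _⟩
  have h1 : (of 0 : F 1) = of 0 ^ (k' * k) := by
    have : φ⁻¹ (φ (of 0)) = of 0 := by simp
    rw [hk, map_zpow, hk', ← zpow_mul] at this
    exact this.symm
  have h2 : (1 : ℤ) = k' * k := by
    have := congrArg (fun z => Multiplicative.toAdd (p z)) h1
    simpa [p] using this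
  have h3 : k = 1 ∨ k = -1 := Int.isUnit_iff.1 (IsUnit.of_mul_eq_one k' (by rw [mul_comm]; exact h2.symm))
  rcases h3 with h3 | h3
  · have : φ = 1 := by
      apply aut_ext
      intro i
      rw [Subsingleton.elim i 0, hk, h3, zpow_one]
      rfl
    rw [this]
    exact Γ.one_mem
  · exfalso
    let θ : F 1 →* Multiplicative (ZMod 3) := FreeGroup.lift fun _ => Multiplicative.ofAdd 1
    have h4 := C_sub θ (⊥ : Subgroup (Multiplicative (ZMod 3))) (by
      rw [Subgroup.index_bot]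
      exact Nat.card_pos.ne') (by rw [Subgroup.index_bot]; simp) (hφ (of 0))
    rw [Subgroup.mem_bot, hk, h3, θ.map_mul, θ.map_inv, map_zpow] at h4
    have h5 : θ (of 0) = Multiplicative.ofAdd 1 := by simp [θ]
    rw [h5] at h4
    revert h4
    decide

/-- all automorphisms of rank at most two -/
theorem congr_le_two (m : ℕ) (hm : m ≤ 2) : Congr m Set.univ := by
  interval_cases m
  · exact congr_zero
  · exact congr_one
  · exact congr_two

/-! ### ranks with the congruence subgroup property for `Out` -/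

/-- The subgroup of the automorphisms acting trivially modulo `K`. -/
def lev {r : ℕ} (K : Subgroup (F r)) [K.Characteristic] : Subgroup (MulAut (F r)) where
  carrier := {φ | ∀ x, x⁻¹ * φ x ∈ K}
  one_mem' := fun x => by simp [K.one_mem]
  mul_mem' := by
    intro φ ψ hφ hψ x
    have h1 := mul_mem (hψ x) (hφ (ψ x))
    have e : x⁻¹ * ψ x * ((ψ x)⁻¹ * φ (ψ x)) = x⁻¹ * (φ * ψ) x := by
      rw [MulAut.mul_apply]
      group
    rwa [e] at h1
  inv_mem' := by
    intro φ hφ x
    have h1 := inv_mem (hφ (φ⁻¹ x))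
    rw [MulAut.apply_inv_self, mul_inv_rev, inv_inv] at h1
    exact h1

theorem lev_normal {r : ℕ} (K : Subgroup (F r)) [K.Characteristic] : (lev K).Normal := by
  constructor
  intro φ hφ ψ x
  have h1 : ψ ((ψ⁻¹ x)⁻¹ * φ (ψ⁻¹ x)) ∈ K :=
    Subgroup.characteristic_iff_le_comap.1 inferInstance ψ (hφ (ψ⁻¹ x))
  have e : ψ ((ψ⁻¹ x)⁻¹ * φ (ψ⁻¹ x)) = x⁻¹ * (ψ * φ * ψ⁻¹) x := by
    rw [MulAut.mul_apply, MulAut.mul_apply, map_mul, map_inv, MulAut.apply_inv_self]
  rwa [e] at h1

theorem lev_fin {r : ℕ} (K : Subgroup (F r)) [K.Characteristic] [K.FiniteIndex] :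
    (lev K).FiniteIndex := by
  -- the action on the quotient
  let θ : MulAut (F r) →* Equiv.Perm (F r ⧸ K) :=
    { toFun := fun φ => (QuotientGroup.congr K K φ
          (Subgroup.characteristic_iff_map_eq.1 inferInstance φ)).toEquiv
      map_one' := by
        ext q
        induction q using QuotientGroup.induction_on
        rfl
      map_mul' := by
        intro φ ψ
        ext q
        induction q using QuotientGroup.induction_on
        rfl }
  have h1 : θ.ker ≤ lev K := by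
    intro φ hφ x
    have h2 := congrArg (fun e : Equiv.Perm (F r ⧸ K) => e (QuotientGroup.mk x))
      (MonoidHom.mem_ker.1 hφ)
    have h3 : (QuotientGroup.mk (φ x) : F r ⧸ K) = QuotientGroup.mk x := h2
    exact QuotientGroup.eq.1 h3.symm
  have : Finite (F r ⧸ K) := inferInstance
  have h2 : θ.ker.FiniteIndex := inferInstance
  exact Subgroup.finiteIndex_of_le h1

/-- elements which are almost central are deep -/
theorem deep {m : ℕ} (hm : 2 ≤ m) (l : ℕ) : ∃ l', ∀ g : F m,
    (∀ x, x⁻¹ * (g * x * g⁻¹) ∈ C m l') → g ∈ C m l := by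
  let i0 : Fin m := ⟨0, by omega⟩
  let i1 : Fin m := ⟨1, by omega⟩
  have h01 : i1 ≠ i0 := fun h => by simpa [i0, i1] using congrArg Fin.val h
  obtain ⟨N, hN⟩ : ∃ N, N = (C m l).index := ⟨_, rfl⟩
  have hN0 : N ≠ 0 := by rw [hN]; exact Subgroup.FiniteIndex.index_ne_zero
  have hNN : NeZero N := ⟨hN0⟩
  have hpow : ∀ y : F m, y ^ N ∈ C m l := by
    intro y
    rw [hN]
    exact Subgroup.pow_index_mem (C m l) y
  let L : Subgroup (F m) := C m (max l N)
  obtain ⟨m1, hm1⟩ := exists_level (L := L)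
  refine ⟨m1, fun g hg => ?_⟩
  have key : ∀ i : Fin m, ∃ s : ℤ, (of i ^ s)⁻¹ * g ∈ L := by
    intro i
    have h1 : E L i (FreeGroup.map (fun _ : Fin 1 => i) (of 0) * g) = E L i (g * of i) := by
      rw [FreeGroup.map.of]
      refine hm1 m1 le_rfl i _ _ ?_
      have h2 := Subgroup.Normal.conj_mem (inferInstance : (C m m1).Normal) _ (hg (of i)) g⁻¹
      have e2 : (of i * g)⁻¹ * (g * of i) = g⁻¹ * ((of i)⁻¹ * (g * of i * g⁻¹)) * g⁻¹⁻¹ := by
        group
      rw [e2]
      exact h2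
    obtain ⟨a0, ha0⟩ := fox_factor (L := L) (fun _ : Fin 1 => i) 0 (of 0) g h1
    have h2 : ∀ y : F 1, ∃ s : ℤ, FreeGroup.map (fun _ : Fin 1 => i) y = of i ^ s := by
      intro y
      induction y using FreeGroup.induction_on with
      | C1 => exact ⟨0, by simp⟩
      | of k => exact ⟨1, by simp⟩
      | inv_of k _ => exact ⟨-1, by simp⟩
      | mul x y hx hy =>
        obtain ⟨s, hs⟩ := hx
        obtain ⟨t, ht⟩ := hy
        exact ⟨s + t, by rw [MonoidHom.map_mul, hs, ht, zpow_add]⟩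
    obtain ⟨s, hs⟩ := h2 a0
    exact ⟨s, by rw [← hs]; exact ha0⟩
  obtain ⟨s, hs⟩ := key i0
  obtain ⟨t, ht⟩ := key i1
  -- the exponent sum of the letter `i0`
  classical
  let θ : F m →* Multiplicative (ZMod N) :=
    FreeGroup.lift fun k => if k = i0 then Multiplicative.ofAdd 1 else 1
  have hθ : ∀ y ∈ L, θ y = 1 := by
    intro y hy
    have h4 := C_sub θ (⊥ : Subgroup (Multiplicative (ZMod N))) (by
      rw [Subgroup.index_bot]
      exact Nat.card_pos.ne') (by rw [Subgroup.index_bot]; simp) hy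
    exact h4
  have h5 := hθ _ hs
  have h6 := hθ _ ht
  have h7 : θ (of i1) = 1 := by simp [θ, h01]
  have h8 : θ (of i0) = Multiplicative.ofAdd 1 := by simp [θ]
  rw [θ.map_mul, θ.map_inv, map_zpow, h7, one_zpow, inv_one, one_mul] at h6
  rw [θ.map_mul, θ.map_inv, map_zpow, h8, h6, mul_one, inv_eq_one, ← ofAdd_zsmul, zsmul_one] at h5
  have h9 : (N : ℤ) ∣ s := (ZMod.intCast_zmod_eq_zero_iff_dvd s N).1
    (Multiplicative.ofAdd.injective h5)
  obtain ⟨u, hu⟩ := h9
  have h10 : of i0 ^ s ∈ C m l := by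
    rw [hu, zpow_mul, zpow_natCast]
    exact Subgroup.zpow_mem _ (hpow _) _
  have := mul_mem h10 (C_anti (le_max_left _ _) hs)
  rwa [mul_inv_cancel_left] at this

/-- The property for `Out` implies the property for `Aut`. -/
theorem congr_q1 {m : ℕ} (h : Q1 m) : Congr m Set.univ := by
  rcases Nat.lt_or_ge m 2 with hm | hm
  · exact congr_le_two m (by omega)
  apply congr_univ
  intro Γ0 hΓ0
  let Γ : Subgroup (MulAut (F m)) := Γ0.normalCore
  have hΓn : Γ.Normal := inferInstance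
  have hΓf : Γ.FiniteIndex := inferInstance
  obtain ⟨l', hl'⟩ := deep hm Γ.index
  let Γ1 : Subgroup (MulAut (F m)) := Γ ⊓ lev (C m l')
  have h1n : (lev (C m l')).Normal := lev_normal _
  have h1f : (lev (C m l')).FiniteIndex := lev_fin _
  have h2n : Γ1.Normal := inferInstance
  have h2f : Γ1.FiniteIndex := inferInstance
  let I : Subgroup (MulAut (F m)) := (MulAut.conj : F m →* MulAut (F m)).range
  have hI : I.Normal := by
    constructor
    rintro _ ⟨g, rfl⟩ ψ
    refine ⟨ψ g, ?_⟩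
    ext x
    simp [MulAut.mul_apply, MulAut.conj_apply]
  obtain ⟨K, hKc, hKf, hK⟩ := h (Γ1 ⊔ I) inferInstance
    (Subgroup.finiteIndex_of_le le_sup_left) (fun g => (le_sup_right : I ≤ Γ1 ⊔ I) ⟨g, rfl⟩)
  refine ⟨K ⊓ C m l', inferInstance, fun φ hφ => Subgroup.normalCore_le Γ0 ?_⟩
  have h3 := hK φ ⟨1, fun x => by simpa using (hφ x).1⟩
  obtain ⟨γ, hγ, y, ⟨g, rfl⟩, rfl⟩ :=
    (Subgroup.mem_sup_of_normal_right (s := Γ1) (t := I)).1 h3
  have h4 : MulAut.conj g ∈ lev (C m l') := by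
    have h5 : γ * MulAut.conj g ∈ lev (C m l') := fun x => (hφ x).2
    have := (lev (C m l')).mul_mem ((lev (C m l')).inv_mem hγ.2) h5
    rwa [inv_mul_cancel_left] at this
  have h5 : g ∈ C m Γ.index := hl' g fun x => h4 x
  have h6 : MulAut.conj g ∈ Γ := C_sub MulAut.conj Γ hΓf.index_ne_zero le_rfl h5
  exact mul_mem hγ.1 h6

end Pool.Agent.H12.RA
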