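import Pool.Agent.H12.RA.Main

set_option autoImplicit false

/-!
# Triangular automorphisms
-/

namespace Pool.Agent.H12.RA

open FreeGroup (of)

/-- the inclusion of the first letters -/
abbrev inc (n : ℕ) : F n →* F (n + 1) := FreeGroup.map Fin.castSucc

theorem before_castSucc {n : ℕ} (i : Fin n) :
    before (Fin.castSucc i) = (before i).map (inc n) := by
  unfold before
  rw [MonoidHom.map_closure]
  congr 1
  ext x
  constructor
  · rintro ⟨j, hj, rfl⟩
    have hj2 : j.val < i.val := hj
    refine ⟨of ⟨j.val, by have := i.2; omega⟩, ⟨⟨j.val, by have := i.2; omega⟩, hj2, rfl⟩, ?_⟩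
    rw [FreeGroup.map.of]
    rfl
  · rintro ⟨_, ⟨j, hj, rfl⟩, rfl⟩
    rw [FreeGroup.map.of]
    exact ⟨Fin.castSucc j, hj, rfl⟩

theorem before_last {n : ℕ} : before (Fin.last n) = (inc n).range := by
  unfold before
  rw [MonoidHom.range_eq_map, ← FreeGroup.closure_range_of, MonoidHom.map_closure]
  congr 1
  ext x
  constructor
  · rintro ⟨j, hj, rfl⟩
    have hj2 : j.val < n := hj
    exact ⟨of ⟨j.val, hj2⟩, ⟨_, rfl⟩, by rw [FreeGroup.map.of]; rfl⟩
  · rintro ⟨_, ⟨j, rfl⟩, rfl⟩
    rw [FreeGroup.map.of]
    exact ⟨Fin.castSucc j, Fin.castSucc_lt_last j, rfl⟩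

theorem triangular_tri (S : (m : ℕ) → Set (MulAut (F m))) (n : ℕ) (φ : MulAut (F n))
    (h : Triangular φ) : Tri S n φ := by
  induction n with
  | zero =>
    have : φ = 1 := by
      ext x
      exact Subsingleton.elim _ _
    rw [this]
    exact Tri.zero
  | succ n ih =>
    have hinj : Function.Injective (inc n) := map_inj (Fin.castSucc_injective n)
    let pa : F (n + 1) →* F n := FreeGroup.lift (Fin.lastCases 1 fun i => of i)
    have hpa : ∀ x, pa (inc n x) = x := by
      intro x
      have h3 : pa.comp (inc n) = MonoidHom.id _ := by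
        ext i
        rw [MonoidHom.comp_apply, FreeGroup.map.of]
        change FreeGroup.lift _ (of (Fin.castSucc i)) = of i
        rw [FreeGroup.lift_apply_of, Fin.lastCases_castSucc]
      exact DFunLike.congr_fun h3 x
    have hpa2 : ∀ y ∈ (inc n).range, inc n (pa y) = y := by
      rintro _ ⟨x, rfl⟩
      rw [hpa]
    have hle : ∀ i : Fin n, before (Fin.castSucc i) ≤ (inc n).range := by
      intro i
      rw [before_castSucc]
      rintro _ ⟨x, _, rfl⟩
      exact ⟨x, rfl⟩
    -- `φ` maps the factor into itself
    have h1 : ∀ x, φ (inc n x) ∈ (inc n).range := by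
      intro x
      induction x using FreeGroup.induction_on with
      | C1 => simp
      | of i =>
        rw [FreeGroup.map.of]
        obtain ⟨u, hu, v, hv, h2⟩ := h (Fin.castSucc i)
        have hx : of (Fin.castSucc i) ∈ (inc n).range := ⟨of i, by rw [FreeGroup.map.of]⟩
        rcases h2 with h2 | h2
        · rw [h2]
          exact mul_mem (mul_mem (hle i hu) hx) (hle i hv)
        · rw [h2]
          exact mul_mem (mul_mem (hle i hu) (inv_mem hx)) (hle i hv)
      | inv_of i hi =>
        rw [MonoidHom.map_inv, map_inv]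
        exact inv_mem hi
      | mul x y hx hy =>
        rw [MonoidHom.map_mul, map_mul]
        exact mul_mem hx hy
    -- and onto
    have h2 : ∀ i : Fin n, of (Fin.castSucc i) ∈ (inc n).range.map φ.toMonoidHom := by
      intro i
      induction i using WellFoundedLT.induction with
      | _ i IH =>
        obtain ⟨u, hu, v, hv, h3⟩ := h (Fin.castSucc i)
        have h4 : before (Fin.castSucc i) ≤ (inc n).range.map φ.toMonoidHom := by
          unfold before
          rw [Subgroup.closure_le]
          rintro _ ⟨j, hj, rfl⟩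
          have hj2 : j.val < i.val := hj
          have h5 := IH ⟨j.val, by have := i.2; omega⟩ hj2
          exact h5
        have h5 : φ (of (Fin.castSucc i)) ∈ (inc n).range.map φ.toMonoidHom :=
          ⟨of (Fin.castSucc i), ⟨of i, by rw [FreeGroup.map.of]⟩, rfl⟩
        rcases h3 with h3 | h3
        · have := mul_mem (mul_mem (inv_mem (h4 hu)) h5) (inv_mem (h4 hv))
          rw [h3] at this
          have e : u⁻¹ * (u * of (Fin.castSucc i) * v) * v⁻¹ = of (Fin.castSucc i) := by group
          rwa [e] at this
        · have := inv_mem (mul_mem (mul_mem (inv_mem (h4 hu)) h5) (inv_mem (h4 hv)))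
          rw [h3] at this
          have e : (u⁻¹ * (u * (of (Fin.castSucc i))⁻¹ * v) * v⁻¹)⁻¹ = of (Fin.castSucc i) := by
            group
          rwa [e] at this
    have h3 : ∀ x, φ⁻¹ (inc n x) ∈ (inc n).range := by
      intro x
      have h4 : inc n x ∈ (inc n).range.map φ.toMonoidHom := by
        induction x using FreeGroup.induction_on with
        | C1 => rw [MonoidHom.map_one]; exact Subgroup.one_mem _
        | of i => rw [FreeGroup.map.of]; exact h2 i
        | inv_of i hi => rw [MonoidHom.map_inv]; exact inv_mem hi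
        | mul x y hx hy => rw [MonoidHom.map_mul]; exact mul_mem hx hy
      obtain ⟨y, hy, hy2⟩ := h4
      have e : φ⁻¹ (inc n x) = y := by
        rw [← hy2]
        exact MulAut.inv_apply_self (F (n + 1)) φ y
      rw [e]
      exact hy
    let α0 : F n →* F n := pa.comp (φ.toMonoidHom.comp (inc n))
    let β0 : F n →* F n := pa.comp ((φ⁻¹ : MulAut (F (n + 1))).toMonoidHom.comp (inc n))
    have hα0 : ∀ x, inc n (α0 x) = φ (inc n x) := fun x => hpa2 _ (h1 x)
    have hβ0 : ∀ x, inc n (β0 x) = φ⁻¹ (inc n x) := fun x => hpa2 _ (h3 x)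
    let α : MulAut (F n) := MonoidHom.toMulEquiv α0 β0
      (by
        apply MonoidHom.ext
        intro x
        apply hinj
        rw [MonoidHom.comp_apply, hβ0, hα0]
        exact MulAut.inv_apply_self (F (n + 1)) φ _)
      (by
        apply MonoidHom.ext
        intro x
        apply hinj
        rw [MonoidHom.comp_apply, hα0, hβ0]
        exact MulAut.apply_inv_self (F (n + 1)) φ _)
    have hα : ∀ x, φ (inc n x) = inc n (α x) := fun x => (hα0 x).symm
    have hαt : Triangular α := by
      intro i
      obtain ⟨u, hu, v, hv, h4⟩ := h (Fin.castSucc i)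
      rw [before_castSucc] at hu hv
      obtain ⟨u', hu', rfl⟩ := hu
      obtain ⟨v', hv', rfl⟩ := hv
      refine ⟨u', hu', v', hv', ?_⟩
      have e : of (Fin.castSucc i) = inc n (of i) := by rw [FreeGroup.map.of]
      rw [e, hα] at h4
      rcases h4 with h4 | h4
      · left
        apply hinj
        rw [h4, MonoidHom.map_mul, MonoidHom.map_mul]
      · right
        apply hinj
        rw [h4, MonoidHom.map_mul, MonoidHom.map_mul, MonoidHom.map_inv]
    obtain ⟨u, hu, v, hv, h4⟩ := h (Fin.last n)
    rw [before_last] at hu hv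
    obtain ⟨u, rfl⟩ := hu
    obtain ⟨v, rfl⟩ := hv
    have h5 : Tri S (n + 1) ((MulAut.conj (inc n u))⁻¹ * φ) := by
      refine Tri.ext (Tri.inner u⁻¹ (ih α hαt)) (v * u) _ (fun x => ?_) ?_
      · change ((MulAut.conj (inc n u))⁻¹ * φ) (inc n x) = inc n ((MulAut.conj u⁻¹ * α) x)
        rw [MulAut.mul_apply, MulAut.mul_apply, ← map_inv, MulAut.conj_apply, MulAut.conj_apply,
          (inc n).map_mul, (inc n).map_mul, hα, (inc n).map_inv, (inc n).map_inv u⁻¹,
          (inc n).map_inv]
      · rw [MulAut.mul_apply, ← map_inv, MulAut.conj_apply, MonoidHom.map_mul]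
        rcases h4 with h4 | h4
        · left
          rw [h4]
          group
        · right
          rw [h4]
          group
    have h6 := Tri.inner (inc n u) h5
    rwa [mul_inv_cancel_left] at h6

end Pool.Agent.H12.RA
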